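import Pool.Agent.Results.MP_b5e119_nt.ManyStepFamily
import Pool.Agent.V11285.SV

/-!
# The gcd recursion for Goldbach pairs near the members of sparse sequences

For all `r`, `m` there is `C (r, m)` such that for every `c > 1` and all `α > 0` outside a set of Hausdorff dimension less than
`1` (the same for all `r`, `m`) and every `η > 0`, for at least `X ^ (1 - η)` of the `k ≤ X` the window `[M, M + C]`,
`M = ⌊α k ^ c⌋`, contains at least `m` odd composite `N` for which `g_N + 1` and `2 N - g_N - 1` are primes, `g_N ≥ N - C`, and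
at least `r` of the gcds of the recursion are nontrivial.
-/

set_option autoImplicit false

namespace Pool.Agent.Results.MP_b5e119_nt.SparseSequences

open Filter Finset

/-- The window `[M, M + C]` contains at least `m` odd composite `N` such that for the sequence `a` of the recursion with its first
zero `g = g_N` the numbers `g + 1` and `2 N - g - 1` are primes, `g + 1 < N ≤ g + C` and at least `r` of the gcds are not `1`. -/
def Window (r m C M : ℕ) : Prop :=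
  ∃ A : Finset ℕ, m ≤ A.card ∧ ∀ N ∈ A, M ≤ N ∧ N ≤ M + C ∧ ¬ N.Prime ∧ Odd N ∧
    ∀ a : ℕ → ℤ, a 1 = (N : ℤ) - 2 →
      (∀ n : ℕ, 2 ≤ n → a n = a (n - 1) -
        ((Int.gcd (a (n - 1)) ((N : ℤ) - (-1 : ℤ) ^ n * ((N : ℤ) - (n : ℤ))) : ℕ) : ℤ)) →
      ∃ g : ℕ, IsLeast {n : ℕ | 2 ≤ n ∧ a n = 0} g ∧ Nat.Prime (g + 1) ∧
        Nat.Prime (2 * N - g - 1) ∧ g + 1 < N ∧ N ≤ g + C ∧
        r ≤ ((Finset.Icc 2 g).filter (fun n => Int.gcd (a (n - 1))
          ((N : ℤ) - (-1 : ℤ) ^ n * ((N : ℤ) - (n : ℤ))) ≠ 1)).card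

/-- **Near the members of sparse sequences.** -/
theorem result : ∃ C : ℕ → ℕ → ℕ, ∀ c : ℝ, 1 < c →
    ∃ E : Set ℝ, dimH E < 1 ∧ ∀ α : ℝ, 0 < α → α ∉ E → ∀ (r m : ℕ) (η : ℝ), 0 < η → ∀ᶠ X : ℕ in atTop,
      (X : ℝ) ^ (1 - η) ≤ ({k : ℕ | 1 ≤ k ∧ k ≤ X ∧ Window r m (C r m) ⌊α * (k : ℝ) ^ c⌋₊}.ncard : ℝ) := by
  classical
  have H := ManyStepFamily.result
  choose C hC using H
  refine ⟨C, fun c hc => ?_⟩
  have hc0 : 0 < c := by linarith
  obtain ⟨κ₁, hκ₁, hp⟩ := Pool.Agent.V11285.SV.power c hc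
  obtain ⟨E, hE, h₁⟩ := hp (fun (i : ℕ × ℕ) (M : ℕ) => Window i.1 i.2 (C i.1 i.2) M)
  refine ⟨E, hE, fun α hα hαE r m η hη => ?_⟩
  set ε : ℝ := min κ₁ (η / (2 * (c + 1))) with hεdef
  have hε : 0 < ε := lt_min hκ₁ (by positivity)
  obtain ⟨x₀, hx₀⟩ := hC r m ε hε
  have hφ0 : ∀ᶠ x : ℕ in atTop, (0 : ℝ) < (x : ℝ) ^ ε := by
    filter_upwards [eventually_ge_atTop 1] with x hx
    have : (0 : ℝ) < x := by exact_mod_cast hx
    positivity
  have hφ1 : ∀ᶠ x : ℕ in atTop, (x : ℝ) ^ ε ≤ (x : ℝ) ^ κ₁ := by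
    filter_upwards [eventually_ge_atTop 1] with x hx
    exact Real.rpow_le_rpow_of_exponent_le (by exact_mod_cast hx) (min_le_left _ _)
  have hx : ∀ᶠ x : ℕ in atTop, x₀ ≤ (x : ℝ) := tendsto_natCast_atTop_atTop.eventually (eventually_ge_atTop x₀)
  have a₁ : ∀ᶠ x : ℕ in atTop, 1 * (x : ℝ) / (x : ℝ) ^ ε ≤ (({n : ℕ | 1 ≤ n ∧ n ≤ x ∧
      Window r m (C r m) n}.ncard : ℕ) : ℝ) := by
    filter_upwards [hx, eventually_ge_atTop 1] with x g1 g2
    have hx1 : (0 : ℝ) < x := by exact_mod_cast g2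
    have e : 1 * (x : ℝ) / (x : ℝ) ^ ε = (x : ℝ) ^ (1 - ε) := by
      rw [Real.rpow_sub hx1, Real.rpow_one, one_mul]
    rw [e]
    refine (hx₀ x g1).trans (le_of_eq ?_)
    rw [Nat.cast_inj, ← Set.ncard_coe_finset]
    congr 1
    ext n
    simp only [Finset.coe_filter, Finset.mem_Icc, Set.mem_ofPred_eq, Nat.floor_natCast, and_assoc]
    rfl
  have b₁ := h₁ α hα hαE (r, m) 1 (fun x : ℕ => (x : ℝ) ^ ε) one_pos hφ0 hφ1 a₁
  filter_upwards [b₁, Pool.Agent.V11285.SV.final_pow hα hc hη hε (min_le_right _ _)] with N g1 g3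
  exact g3.trans g1

end Pool.Agent.Results.MP_b5e119_nt.SparseSequences
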