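import Mathlib

set_option autoImplicit false

namespace Pool.Agent.Results.MP_b5e119_nt.ZeroIsEven

theorem arg_mod2 (N : ℤ) (n : ℕ) : (N - (-1) ^ n * (N - n)) % 2 = (n : ℤ) % 2 := by
  rcases Nat.even_or_odd n with h | h
  · rw [h.neg_one_pow]; omega
  · rw [h.neg_one_pow]; omega

theorem parity (N : ℤ) (a : ℕ → ℤ)
    (ha : ∀ n : ℕ, 2 ≤ n →
      a n = a (n - 1) - ((Int.gcd (a (n - 1)) (N - (-1) ^ n * (N - n))) : ℤ)) :
    ∀ n : ℕ, 2 ≤ n → a n % 2 = (n : ℤ) % 2 := by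
  intro n hn
  induction n, hn using Nat.le_induction with
  | base =>
    rw [ha 2 le_rfl]
    have e : 2 - 1 = 1 := rfl
    rw [e]
    have hb : N - (-1) ^ 2 * (N - ((2 : ℕ) : ℤ)) = 2 := by norm_num
    rw [hb]
    set g := Int.gcd (a 1) 2 with hg
    have g1 : ((g : ℕ) : ℤ) ∣ a 1 := Int.gcd_dvd_left _ _
    rcases (show a 1 % 2 = 0 ∨ a 1 % 2 = 1 by omega) with h | h
    · have h2 : (2 : ℤ) ∣ (g : ℤ) := Int.dvd_coe_gcd (by omega) (by norm_num)
      omega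
    · have hodd : ((g : ℕ) : ℤ) % 2 = 1 := by
        by_contra hcon
        have h2 : ((g : ℕ) : ℤ) % 2 = 0 := by omega
        obtain ⟨c, hc⟩ := g1
        have h3 : a 1 % 2 = 0 := by
          rw [hc, Int.mul_emod, h2]; simp
        omega
      omega
  | succ n hn ih =>
    rw [ha (n + 1) (by omega)]
    have e : n + 1 - 1 = n := by omega
    rw [e]
    have hb := arg_mod2 N (n + 1)
    set g := Int.gcd (a n) (N - (-1) ^ (n + 1) * (N - ((n + 1 : ℕ) : ℤ))) with hg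
    have g1 : ((g : ℕ) : ℤ) ∣ a n := Int.gcd_dvd_left _ _
    have g2 : ((g : ℕ) : ℤ) ∣ N - (-1) ^ (n + 1) * (N - ((n + 1 : ℕ) : ℤ)) :=
      Int.gcd_dvd_right _ _
    have hodd : ((g : ℕ) : ℤ) % 2 = 1 := by
      by_contra hcon
      have h2 : ((g : ℕ) : ℤ) % 2 = 0 := by omega
      rcases Nat.even_or_odd n with h | h
      · have h' := Nat.even_iff.1 h
        obtain ⟨c, hc⟩ := g2
        have h3 : (N - (-1) ^ (n + 1) * (N - ((n + 1 : ℕ) : ℤ))) % 2 = 0 := by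
          rw [hc, Int.mul_emod, h2]; simp
        have h4 : ((n + 1 : ℕ) : ℤ) % 2 = 1 := by push_cast; omega
        omega
      · have h' := Nat.odd_iff.1 h
        obtain ⟨c, hc⟩ := g1
        have h3 : a n % 2 = 0 := by
          rw [hc, Int.mul_emod, h2]; simp
        omega
    push_cast
    omega

/-- For every `N ≥ 3` every zero `g` of the sequence is even, so `g+1` and `2N-g-1` are odd. -/
theorem result :
    ∀ N : ℕ, 3 ≤ N → ∀ a : ℕ → ℤ, a 1 = (N : ℤ) - 2 →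
      (∀ n : ℕ, 2 ≤ n →
        a n = a (n - 1) - ((Int.gcd (a (n - 1)) ((N : ℤ) - (-1) ^ n * ((N : ℤ) - n))) : ℤ)) →
      ∀ g : ℕ, 1 ≤ g → a g = 0 → Odd (g + 1) ∧ Odd (2 * (N : ℤ) - g - 1) := by
  intro N hN a ha1 ha g hf h0
  have hf2 : 2 ≤ g := by
    rcases (show g = 1 ∨ 2 ≤ g by omega) with h | h
    · subst h
      rw [ha1] at h0
      have : (3 : ℤ) ≤ N := by exact_mod_cast hN
      omega
    · exact h
  have h1 := parity N a ha g hf2
  rw [h0] at h1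
  rw [Nat.odd_iff, Int.odd_iff]
  omega

end Pool.Agent.Results.MP_b5e119_nt.ZeroIsEven
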